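import Pool.Agent.helper71.EP.SpecE

/-!
# Module EBC of project ep, part E: the number of the pairs of primes in terms of odd values
-/

set_option autoImplicit false

open Finset
open scoped Real
open Pool.Agent.helper74.TG

noncomputable section

namespace Pool.Agent.EP

theorem EBC (hO : EBO_stmt) (hN : EBN_stmt) (hM : EBM_stmt) : EBC_stmt := by
  classical
  intro U D hD
  have hsub : Pq U ⊆ ({n ∈ range (U ^ 4 + 1) | Odd (Fintype.card (Nat.Partition n))}).biUnion
      (fun n => {z ∈ Pq U | Frm z.1 z.2 n}) := by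
    intro z hz
    obtain ⟨n, hn⟩ := hO U z.1 z.2 hz
    have hn4 := hN U z.1 z.2 n hz hn
    rw [mem_biUnion]
    exact ⟨n, mem_filter.2 ⟨mem_range.2 (by omega), hn.1⟩, mem_filter.2 ⟨hz, hn⟩⟩
  have hb : ∀ n ∈ ({n ∈ range (U ^ 4 + 1) | Odd (Fintype.card (Nat.Partition n))}),
      #{z ∈ Pq U | Frm z.1 z.2 n} ≤ 2 * D ^ 2 := by
    intro n hn
    have h1 := mem_range.1 (mem_filter.1 hn).1
    exact hM U D hD n (by omega)
  refine (card_le_card hsub).trans (card_biUnion_le.trans ((sum_le_sum hb).trans ?_))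
  rw [sum_const, smul_eq_mul, mul_comm]
  rfl

end Pool.Agent.EP
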